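import Pool.Agent.MNU.StmtsU
import Pool.Agent.MNT.Fin

/-!
# Squad MNU (MP_160b6c_nt), row SPU: configurations from many torsion points
-/

set_option autoImplicit false

namespace Pool.Agent.MNU.H17

open Polynomial NumberField
open Pool.Agent.MNT

theorem QR_eq (g : ℕ) : QR g = Finset.univ.map (Function.Embedding.inl (α := Fin (2 * g + 1))
    (β := Fin (2 * g + 9))) := by
  ext p
  rcases p with p | p
  · simp [QR]
  · simp [QR]

theorem inl_mem (g : ℕ) (j : Fin (2 * g + 1)) : (Sum.inl j : QI g) ∈ QR g := by simp [QR]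

theorem FF_elim {K : Type} [Field K] (g : ℕ) (e : K) (θ : Fin (2 * g + 1) → K)
    (x : Fin (2 * g + 9) → K) :
    FF e (QR g) (Sum.elim θ x) = C e * ∏ j, (X - C (θ j)) := by
  rw [FF, QR_eq, Finset.prod_map]
  rfl

theorem isSol_map {K E : Type} [Field K] [Field E] (φ : K →+* E) {f : K[X]} {x : K} {N : ℕ}
    {U W : K[X]} {c : K} (h : IsSol f x N U W c) :
    IsSol (f.map φ) (φ x) N (U.map φ) (W.map φ) (φ c) := by
  refine ⟨h.pos, (_root_.map_ne_zero φ).2 h.c_ne, ?_, ?_, ?_, ?_⟩
  · have h1 := congrArg (Polynomial.map φ) h.eq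
    simpa only [Polynomial.map_sub, Polynomial.map_mul, Polynomial.map_pow, Polynomial.map_C,
      Polynomial.map_X] using h1
  · rw [natDegree_map]
    exact h.deg
  · rw [leadingCoeff_map, ← map_pow, h.lead, map_pow]
  · rw [Polynomial.eval_map_apply]
    exact (_root_.map_ne_zero φ).2 h.ev

theorem cfg_of {K : Type} [Field K] (g : ℕ) (f : K[X]) (hsq : Squarefree f)
    (x y : Fin (2 * g + 9) → K) (hx : Function.Injective x) (hon : ∀ i, y i ^ 2 = f.eval (x i))
    (hne : ∀ i, y i ≠ 0)
    (hsol : ∀ i, ∃ (N : ℕ) (U W : K[X]) (c : K), IsSol f (x i) N U W c) (e : K)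
    (θ : Fin (2 * g + 1) → K) (hf : f = C e * ∏ j, (X - C (θ j))) :
    Cfg g (Sum.elim θ x) e := by
  have hf0 : f ≠ 0 := hsq.ne_zero
  have he : e ≠ 0 := by
    rintro rfl
    rw [C_0, zero_mul] at hf
    exact hf0 hf
  have hroot : ∀ j, f.eval (θ j) = 0 := by
    intro j
    rw [hf, eval_mul, eval_prod]
    rw [Finset.prod_eq_zero (Finset.mem_univ j) (by simp), mul_zero]
  have hθ : Function.Injective θ := by
    intro j k hjk
    by_contra hne'
    have h1 : (X - C (θ j)) * (X - C (θ j)) ∣ f := by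
      rw [hf]
      apply Dvd.dvd.mul_left
      rw [← Finset.mul_prod_erase _ _ (Finset.mem_univ j)]
      apply mul_dvd_mul_left
      have h2 : k ∈ Finset.univ.erase j := Finset.mem_erase.2 ⟨fun h => hne' h.symm,
        Finset.mem_univ k⟩
      rw [← Finset.mul_prod_erase _ _ h2, ← hjk]
      exact dvd_mul_right _ _
    have h3 := hsq _ h1
    exact not_isUnit_X_sub_C _ h3
  refine ⟨?_, he, ?_⟩
  · rw [Sum.elim_injective]
    refine ⟨hθ, hx, ?_⟩
    intro j i h
    apply hne i
    have h1 := hon i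
    rw [← h, hroot j] at h1
    exact pow_eq_zero_iff (two_ne_zero) |>.1 h1
  · rintro (j | i) hp
    · exact absurd (inl_mem g j) hp
    · rw [FF_elim, ← hf]
      exact hsol i

theorem spu (hpel : PelStmt) (hext : UBT.Ext1Stmt) : SpuStmt := by
  intro g K _ _ f hd hsq x y hx hon hne htor
  obtain ⟨E, _, _, _, hs, hdeg⟩ := hext K f hsq.ne_zero
  have hinj : Function.Injective (algebraMap K E) := (algebraMap K E).injective
  have hf0 : f.map (algebraMap K E) ≠ 0 := (Polynomial.map_ne_zero_iff hinj).2 hsq.ne_zero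
  have hsq' : Squarefree (f.map (algebraMap K E)) :=
    (PerfectField.separable_iff_squarefree.2 hsq).map.squarefree
  have hcard : (f.map (algebraMap K E)).roots.card = 2 * g + 1 := by
    rw [← hs.natDegree_eq_card_roots, natDegree_map, hd]
  obtain ⟨L, hL⟩ := Quot.exists_rep (f.map (algebraMap K E)).roots
  have hLc : L.length = 2 * g + 1 := by
    rw [← hcard, ← hL]
    rfl
  have hprod : f.map (algebraMap K E) = C (f.map (algebraMap K E)).leadingCoeff *
      ∏ j : Fin (2 * g + 1), (X - C (L.get (Fin.cast hLc.symm j))) := by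
    conv_lhs => rw [hs.eq_prod_roots]
    congr 1
    rw [← hL]
    have h1 : (Multiset.map (fun a => X - C a) (Quot.mk _ L : Multiset E)).prod =
        (L.map fun a => X - C a).prod := by
      show (Multiset.map (fun a => X - C a) (L : Multiset E)).prod = _
      rw [Multiset.map_coe, Multiset.prod_coe]
    rw [h1]
    have h2 : (L.map fun a => (X - C a : E[X])).prod =
        ∏ j : Fin L.length, (X - C (L.get j)) := by
      rw [← List.prod_ofFn]
      congr 1
      apply List.ext_get
      · simp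
      · intro n h1 h2
        simp
    rw [h2]
    exact (Fin.prod_congr' (fun j => (X - C (L.get j) : E[X])) hLc.symm).symm
  refine ⟨E, inferInstance, inferInstance, inferInstance, _, _, ?_, hprod, ?_⟩
  · rw [← Module.finrank_mul_finrank ℚ K E]
    apply Nat.mul_le_mul_left
    rw [← hd]
    exact hdeg
  · apply cfg_of g (f.map (algebraMap K E)) hsq' _ (fun i => algebraMap K E (y i))
      (hinj.comp hx) _ _ _ _ _ hprod
    · intro i
      rw [← map_pow, hon i]
      exact (Polynomial.eval_map_apply (algebraMap K E) (x i)).symm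
    · intro i
      exact (_root_.map_ne_zero _).2 (hne i)
    · intro i
      obtain ⟨N, hN⟩ := htor i
      obtain ⟨U, W, c, hU⟩ := hpel K f (x i) (y i) N two_ne_zero (hd ▸ ⟨g, rfl⟩) (hon i) (hne i) hN
      exact ⟨N, _, _, _, isSol_map (algebraMap K E) hU⟩

end Pool.Agent.MNU.H17
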